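import Pool.Agent.R503.SIC.Base

set_option autoImplicit false

/-! # Smooth quadratic exponential sums modulo a prime: the square-root bound without a logarithm -/

namespace Pool.Agent.N655.WH

open Finset Complex Pool.Agent.R503.SIC
open scoped ComplexConjugate

variable {p : ℕ} [NeZero p]

/-- Parseval's identity on `ℤ / p` -/
theorem parseval (a : ZMod p → ℂ) :
    ∑ m : ZMod p, ‖∑ i, a i * e (m * i)‖ ^ 2 = p * ∑ i, ‖a i‖ ^ 2 := by
  have h : (∑ m : ZMod p, ((‖∑ i, a i * e (m * i)‖ ^ 2 : ℝ) : ℂ)) =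
      ((p * ∑ i, ‖a i‖ ^ 2 : ℝ) : ℂ) := by
    calc ∑ m : ZMod p, ((‖∑ i, a i * e (m * i)‖ ^ 2 : ℝ) : ℂ)
        = ∑ m : ZMod p, ∑ i, ∑ j, a i * conj (a j) * e (m * (i - j)) := by
          refine sum_congr rfl fun m _ => ?_
          rw [← conj_mul_self', mul_comm, map_sum, sum_mul_sum]
          refine sum_congr rfl fun i _ => sum_congr rfl fun j _ => ?_
          rw [map_mul, conj_e, mul_sub, sub_eq_add_neg, e_add]; ring
      _ = ∑ i, ∑ j, ∑ m : ZMod p, a i * conj (a j) * e (m * (i - j)) := by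
          rw [sum_comm]
          refine sum_congr rfl fun i _ => ?_
          rw [sum_comm]
      _ = ∑ i, ∑ j, a i * conj (a j) * (if i - j = 0 then (p : ℂ) else 0) := by
          refine sum_congr rfl fun i _ => sum_congr rfl fun j _ => ?_
          rw [← mul_sum, sum_e]
      _ = ∑ i, (p : ℂ) * ((‖a i‖ ^ 2 : ℝ) : ℂ) := by
          refine sum_congr rfl fun i _ => ?_
          rw [sum_eq_single i]
          · rw [sub_self, if_pos rfl, ← conj_mul_self']; ring
          · intro j _ hj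
            rw [if_neg (fun h => hj (sub_eq_zero.1 h).symm), mul_zero]
          · intro h; exact absurd (mem_univ _) h
      _ = ((p * ∑ i, ‖a i‖ ^ 2 : ℝ) : ℂ) := by
          rw [← mul_sum]; push_cast; rfl
  exact_mod_cast h

/-- translates of a quadratic phase -/
theorem parseval_quad {u : ZMod p} (hu : IsUnit (2 * u)) (v : ZMod p) (G : ZMod p → ℂ) :
    ∑ l : ZMod p, ‖∑ i, G i * e (u * (i + l) ^ 2 + v * (i + l))‖ ^ 2 = p * ∑ i, ‖G i‖ ^ 2 := by
  have h1 : ∀ l : ZMod p, ‖∑ i, G i * e (u * (i + l) ^ 2 + v * (i + l))‖ =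
      ‖∑ i, (G i * e (u * i ^ 2 + v * i)) * e ((2 * u * l) * i)‖ := by
    intro l
    have : ∑ i, G i * e (u * (i + l) ^ 2 + v * (i + l)) =
        e (u * l ^ 2 + v * l) * ∑ i, (G i * e (u * i ^ 2 + v * i)) * e ((2 * u * l) * i) := by
      rw [mul_sum]
      refine sum_congr rfl fun i _ => ?_
      have h2 : u * (i + l) ^ 2 + v * (i + l) =
          (u * l ^ 2 + v * l) + ((u * i ^ 2 + v * i) + (2 * u * l) * i) := by ring
      rw [h2, e_add (u * l ^ 2 + v * l), e_add (u * i ^ 2 + v * i)]; ring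
    rw [this, norm_mul, norm_e, one_mul]
  rw [sum_congr rfl fun l _ => by rw [h1 l]]
  have h3 : ∑ l : ZMod p, ‖∑ i, (G i * e (u * i ^ 2 + v * i)) * e ((2 * u * l) * i)‖ ^ 2 =
      ∑ m : ZMod p, ‖∑ i, (G i * e (u * i ^ 2 + v * i)) * e (m * i)‖ ^ 2 := by
    obtain ⟨w, hw⟩ := hu
    refine Fintype.sum_equiv (Units.mulLeft w) _ _ fun l => ?_
    rw [Units.mulLeft_apply, hw]
  rw [h3, parseval]
  congr 1
  refine sum_congr rfl fun i _ => ?_
  rw [norm_mul, norm_e, mul_one]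

/-- the sum over `Fin`-type ranges of a function on `ℤ / p` -/
theorem sum_range_cast (f : ZMod p → ℝ) : ∑ l ∈ range p, f (l : ZMod p) = ∑ l, f l := by
  refine sum_bij' (fun l _ => (l : ZMod p)) (fun j _ => j.val) (fun _ _ => mem_univ _)
    (fun j _ => mem_range.2 (ZMod.val_lt j)) ?_ ?_ (fun _ _ => rfl)
  · intro l hl
    exact ZMod.val_cast_of_lt (mem_range.1 hl)
  · intro j _
    exact ZMod.natCast_zmod_val j

/-- **Core estimate.** -/
theorem core {u : ZMod p} (hu : IsUnit (2 * u)) (v : ZMod p) (F : ZMod p → ℂ) (z : ℂ) :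
    ‖1 - z ^ p‖ ^ 2 * ‖∑ j, F j * e (u * j ^ 2 + v * j)‖ ^ 2 ≤
      (∑ l ∈ range p, (‖z‖ ^ 2) ^ l) * (p * ∑ j, ‖F j - z * F (j - 1)‖ ^ 2) := by
  set D : ZMod p → ℂ := fun j => F j - z * F (j - 1) with hD
  set S : ZMod p → ℂ := fun l => ∑ i, D i * e (u * (i + l) ^ 2 + v * (i + l)) with hS
  have h1 : ∀ j, (1 - z ^ p) * F j = ∑ l ∈ range p, z ^ l * D (j - l) := by
    intro j
    have h2 : ∀ l ∈ range p, z ^ l * D (j - l) =
        z ^ l * F (j - (l : ℕ)) - z ^ (l + 1) * F (j - ((l + 1 : ℕ) : ZMod p)) := by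
      intro l _
      have h3 : j - ((l + 1 : ℕ) : ZMod p) = j - l - 1 := by push_cast; ring
      simp only [hD]
      rw [h3, pow_succ]; ring
    rw [sum_congr rfl h2, sum_range_sub']
    simp only [pow_zero, Nat.cast_zero, sub_zero, one_mul, CharP.cast_eq_zero]
    ring
  have h4 : (1 - z ^ p) * ∑ j, F j * e (u * j ^ 2 + v * j) = ∑ l ∈ range p, z ^ l * S l := by
    calc (1 - z ^ p) * ∑ j, F j * e (u * j ^ 2 + v * j)
        = ∑ j, ∑ l ∈ range p, z ^ l * (D (j - l) * e (u * j ^ 2 + v * j)) := by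
          rw [mul_sum]
          refine sum_congr rfl fun j _ => ?_
          rw [← mul_assoc, h1, sum_mul]
          refine sum_congr rfl fun l _ => ?_
          ring
      _ = ∑ l ∈ range p, z ^ l * ∑ j, D (j - l) * e (u * j ^ 2 + v * j) := by
          rw [sum_comm]
          refine sum_congr rfl fun l _ => ?_
          rw [mul_sum]
      _ = ∑ l ∈ range p, z ^ l * S l := by
          refine sum_congr rfl fun l _ => ?_
          congr 1
          refine Fintype.sum_equiv (Equiv.subRight (l : ZMod p)) _ _ fun j => ?_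
          simp
  have h5 : ‖∑ l ∈ range p, z ^ l * S l‖ ^ 2 ≤
      (∑ l ∈ range p, (‖z‖ ^ 2) ^ l) * ∑ l ∈ range p, ‖S l‖ ^ 2 := by
    have h6 : ‖∑ l ∈ range p, z ^ l * S l‖ ≤ ∑ l ∈ range p, ‖z‖ ^ l * ‖S l‖ := by
      refine (norm_sum_le _ _).trans (le_of_eq ?_)
      refine sum_congr rfl fun l _ => ?_
      rw [norm_mul, norm_pow]
    refine (pow_le_pow_left₀ (norm_nonneg _) h6 2).trans ?_
    refine (sum_mul_sq_le_sq_mul_sq _ _ _).trans (le_of_eq ?_)
    congr 1
    refine sum_congr rfl fun l _ => ?_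
    rw [← pow_mul, ← pow_mul, mul_comm]
  rw [← mul_pow, ← norm_mul, h4]
  refine h5.trans (le_of_eq ?_)
  rw [sum_range_cast (fun l => ‖S l‖ ^ 2), parseval_quad hu]

end Pool.Agent.N655.WH
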