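import Pool.Agent.N655.WH.Phases

set_option autoImplicit false

/-! # Folding modulo `d` -/

namespace Pool.Agent.N655.WH

open Finset Complex Pool.Agent.R503.SIC
open scoped ComplexConjugate

variable {d : ℕ} [NeZero d]

/-- folding of a function on the integers modulo `d` -/
noncomputable def fold (P : ℤ → ℂ) (j : ZMod d) : ℂ :=
  ∑ r ∈ Ico (-(d : ℤ)) d, if (r : ZMod d) = j then P r else 0

/-- overlap of foldings -/
theorem ov_fold {P Q : ℤ → ℂ} (hP : ∀ r, P r ≠ 0 → r ∈ Ico (-(d : ℤ)) d) (a b : ZMod d) :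
    ∑ j, conj (fold P (j + a)) * (e (b * j) * fold Q j) =
      ∑ s ∈ (Ico (-(2 * d : ℤ)) (2 * d)).filter (fun s : ℤ => (s : ZMod d) = a),
        ∑ r ∈ Ico (-(d : ℤ)) d, conj (P (r + s)) * (e (b * (r : ZMod d)) * Q r) := by
  have h1 : ∀ r ∈ Ico (-(d : ℤ)) d, fold P ((r : ZMod d) + a) =
      ∑ s ∈ (Ico (-(2 * d : ℤ)) (2 * d)).filter (fun s : ℤ => (s : ZMod d) = a), P (r + s) := by
    intro r hr
    unfold fold
    rw [sum_filter]
    rw [mem_Ico] at hr
    have h2 : ∑ s ∈ Ico (-(2 * d : ℤ)) (2 * d), (if (s : ZMod d) = a then P (r + s) else 0) =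
        ∑ x ∈ Ico (r - 2 * d) (r + 2 * d), (if (x : ZMod d) = (r : ZMod d) + a then P x else 0) := by
      refine sum_nbij' (fun s => r + s) (fun x => x - r) ?_ ?_ ?_ ?_ ?_
      · intro s hs; rw [mem_Ico] at hs ⊢; omega
      · intro s hs; rw [mem_Ico] at hs ⊢; omega
      · intro s _; ring
      · intro s _; ring
      · intro s _
        have : (((r + s : ℤ) : ZMod d) = (r : ZMod d) + a) ↔ ((s : ZMod d) = a) := by
          push_cast; exact add_right_inj _
        simp only [this]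
    rw [h2]
    have h3 : ∀ x : ℤ, (if (x : ZMod d) = (r : ZMod d) + a then P x else 0) ≠ 0 →
        x ∈ Ico (-(d : ℤ)) d := by
      intro x hx
      apply hP
      intro h0
      apply hx
      rw [h0]; simp
    refine sum_eq_of_support h3 fun x hx => ?_
    have := h3 x hx
    rw [mem_Ico] at this ⊢
    omega
  calc ∑ j, conj (fold P (j + a)) * (e (b * j) * fold Q j)
      = ∑ j, ∑ r ∈ Ico (-(d : ℤ)) d, (if (r : ZMod d) = j then
          conj (fold P ((r : ZMod d) + a)) * (e (b * (r : ZMod d)) * Q r) else 0) := by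
        refine sum_congr rfl fun j _ => ?_
        have h4 : fold Q j = ∑ r ∈ Ico (-(d : ℤ)) d, if (r : ZMod d) = j then Q r else 0 := rfl
        rw [h4, mul_sum, mul_sum]
        refine sum_congr rfl fun r _ => ?_
        split_ifs with h
        · rw [h]
        · simp
    _ = ∑ r ∈ Ico (-(d : ℤ)) d,
          conj (fold P ((r : ZMod d) + a)) * (e (b * (r : ZMod d)) * Q r) := by
        rw [sum_comm]
        refine sum_congr rfl fun r _ => ?_
        rw [sum_ite_eq, if_pos (mem_univ _)]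
    _ = ∑ r ∈ Ico (-(d : ℤ)) d, ∑ s ∈ (Ico (-(2 * d : ℤ)) (2 * d)).filter
          (fun s : ℤ => (s : ZMod d) = a), conj (P (r + s)) * (e (b * (r : ZMod d)) * Q r) := by
        refine sum_congr rfl fun r hr => ?_
        rw [h1 r hr, map_sum, sum_mul]
    _ = _ := sum_comm

/-- at most two elements of a residue class in an open interval of length `2 d` -/
theorem card_le (a : ZMod d) (q : ℝ) (J : Finset ℤ) :
    (J.filter (fun s : ℤ => (s : ZMod d) = a ∧ |(s : ℝ) - q| < d)).card ≤ 2 := by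
  by_contra hcon
  push Not at hcon
  obtain ⟨x, y, z, hx, hy, hz, hxy, hxz, hyz⟩ := two_lt_card_iff.1 hcon
  rw [mem_filter] at hx hy hz
  have hd : (0 : ℤ) < d := by exact_mod_cast Nat.pos_of_ne_zero (NeZero.ne d)
  have key : ∀ x y : ℤ, (x : ZMod d) = a → (y : ZMod d) = a → |(x : ℝ) - q| < d →
      |(y : ℝ) - q| < d → x ≠ y → (x + d ≤ y ∨ y + d ≤ x) ∧ x < y + 2 * d ∧ y < x + 2 * d := by
    intro x y h1 h2 h3 h4 h5
    have h6 : (d : ℤ) ∣ y - x := by
      rw [← ZMod.intCast_eq_intCast_iff_dvd_sub]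
      rw [h1, h2]
    rw [abs_lt] at h3 h4
    refine ⟨?_, ?_, ?_⟩
    · rcases lt_or_gt_of_ne h5 with h7 | h7
      · left
        have := Int.le_of_dvd (by omega) h6
        omega
      · right
        have h8 : (d : ℤ) ∣ x - y := by
          rw [← neg_sub]; exact (dvd_neg).2 h6
        have := Int.le_of_dvd (by omega) h8
        omega
    · have : (x : ℝ) < (y : ℝ) + 2 * d := by linarith
      exact_mod_cast this
    · have : (y : ℝ) < (x : ℝ) + 2 * d := by linarith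
      exact_mod_cast this
  have k1 := key x y hx.2.1 hy.2.1 hx.2.2 hy.2.2 hxy
  have k2 := key x z hx.2.1 hz.2.1 hx.2.2 hz.2.2 hxz
  have k3 := key y z hy.2.1 hz.2.1 hy.2.2 hz.2.2 hyz
  omega

variable {p : ℕ} [NeZero p]

/-- the contribution of one pair of windows -/
noncomputable def T (t : ZMod p) (c c' : ℝ) (κ κ' : ℤ) (b : ZMod d) (s : ℤ) : ℂ :=
  ∑ r ∈ Ico (-(d : ℤ)) d, conj (B d t c κ (r + s)) * (e (b * (r : ZMod d)) * B d t c' κ' r)

theorem T_zero (t : ZMod p) {c c' : ℝ} {κ κ' : ℤ} {b : ZMod d} {s : ℤ}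
    (h : (d : ℝ) ≤ |(s : ℝ) - (c - c')|) : T t c c' κ κ' b s = 0 := by
  unfold T
  apply sum_eq_zero
  intro r _
  by_cases h1 : (d : ℝ) / 2 ≤ |((r + s : ℤ) : ℝ) - c|
  · rw [B_zero_of t h1]; simp
  · by_cases h2 : (d : ℝ) / 2 ≤ |(r : ℝ) - c'|
    · rw [B_zero_of t h2]; simp
    · exfalso
      push Not at h1 h2
      have : |(s : ℝ) - (c - c')| ≤ |((r + s : ℤ) : ℝ) - c| + |(r : ℝ) - c'| := by
        have h3 : (s : ℝ) - (c - c') = (((r + s : ℤ) : ℝ) - c) - ((r : ℝ) - c') := by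
          push_cast; ring
        rw [h3]
        exact abs_sub _ _
      linarith

/-- the contribution of one pair of windows, all shifts -/
theorem pair_bound (hd : 7000 ≤ d) (hp : p.Prime) (hp1 : 2 * d < p) (hp2 : p ≤ 4 * d) {t : ZMod p}
    (ht : 3 * t = 1) (c c' : ℝ) (κ κ' : ℤ) (a b : ZMod d) (hc1 : (d : ℝ) / 2 ≤ d + c')
    (hc2 : c' + d / 2 ≤ d)
    (hu : ∀ s : ℤ, (s : ZMod d) = a → |(s : ℝ) - (c - c')| < d →
      ((κ' - κ - s : ℤ) : ZMod p) ≠ 0) (J : Finset ℤ) :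
    ‖∑ s ∈ J.filter (fun s : ℤ => (s : ZMod d) = a), T t c c' κ κ' b s‖ ≤
      2 * Real.sqrt (51 * d) := by
  have h1 : ∑ s ∈ J.filter (fun s : ℤ => (s : ZMod d) = a), T t c c' κ κ' b s =
      ∑ s ∈ J.filter (fun s : ℤ => (s : ZMod d) = a ∧ |(s : ℝ) - (c - c')| < d),
        T t c c' κ κ' b s := by
    symm
    apply sum_subset
    · intro s hs
      rw [mem_filter] at hs ⊢
      exact ⟨hs.1, hs.2.1⟩
    · intro s hs hs'
      rw [mem_filter] at hs hs'
      apply T_zero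
      by_contra hcon
      push Not at hcon
      exact hs' ⟨hs.1, hs.2, hcon⟩
  rw [h1]
  have h2 : ∀ s ∈ J.filter (fun s : ℤ => (s : ZMod d) = a ∧ |(s : ℝ) - (c - c')| < d),
      ‖T t c c' κ κ' b s‖ ≤ Real.sqrt (51 * d) := by
    intro s hs
    rw [mem_filter] at hs
    apply Real.le_sqrt_of_sq_le
    refine T_bound hd hp hp1 hp2 ht c c' κ κ' s b (hu s hs.2.1 hs.2.2) ?_
    intro r hr
    rw [abs_lt] at hr
    rw [mem_Ico]
    constructor
    · have : (-(d : ℤ) : ℝ) ≤ (r : ℝ) := by push_cast; linarith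
      exact_mod_cast this
    · have : (r : ℝ) < (d : ℝ) := by linarith
      exact_mod_cast this
  refine (norm_sum_le _ _).trans ((sum_le_sum h2).trans ?_)
  rw [sum_const, nsmul_eq_mul]
  refine mul_le_mul_of_nonneg_right ?_ (Real.sqrt_nonneg _)
  exact_mod_cast card_le a (c - c') J

/-- a pair of equal windows, shifts divisible by `d` -/
theorem pair_zero (t : ZMod p) (c : ℝ) (κ : ℤ) (b : ZMod d) :
    ∑ s ∈ (Ico (-(2 * d : ℤ)) (2 * d)).filter (fun s : ℤ => (s : ZMod d) = 0), T t c c κ κ b s =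
      ∑ r ∈ Ico (-(d : ℤ)) d, ((g d c r ^ 2 : ℝ) : ℂ) * e (b * (r : ZMod d)) := by
  have hd : (0 : ℤ) < d := by exact_mod_cast Nat.pos_of_ne_zero (NeZero.ne d)
  rw [sum_eq_single (0 : ℤ)]
  · unfold T
    refine sum_congr rfl fun r _ => ?_
    rw [add_zero]
    have : conj (B d t c κ r) * (e (b * (r : ZMod d)) * B d t c κ r) =
        (conj (B d t c κ r) * B d t c κ r) * e (b * (r : ZMod d)) := by ring
    rw [this, conj_mul_self']
    congr 2
    unfold B
    rw [norm_mul, norm_e, mul_one, Complex.norm_real, Real.norm_eq_abs, sq_abs]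
  · intro s hs hs0
    rw [mem_filter] at hs
    apply T_zero
    have h1 : (d : ℤ) ∣ s := (ZMod.intCast_zmod_eq_zero_iff_dvd _ _).1 hs.2
    have h2 : (d : ℤ) ≤ |s| := Int.le_of_dvd (abs_pos.2 hs0) ((dvd_abs _ _).2 h1)
    have h3 : (d : ℝ) ≤ |(s : ℝ)| := by exact_mod_cast h2
    rw [sub_self, sub_zero]
    exact h3
  · intro h
    exfalso
    apply h
    rw [mem_filter, mem_Ico]
    refine ⟨by omega, by simp⟩

/-- the main term -/
theorem main_term (b : ZMod d) :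
    ∑ r ∈ Ico (-(d : ℤ)) d, ((g d (d / 2) r ^ 2 : ℝ) : ℂ) * e (b * (r : ZMod d)) +
      ∑ r ∈ Ico (-(d : ℤ)) d, ((g d 0 r ^ 2 : ℝ) : ℂ) * e (b * (r : ZMod d)) =
      if b = 0 then (d : ℂ) else 0 := by
  have hd : 0 < d := Nat.pos_of_ne_zero (NeZero.ne d)
  have hd' : (0 : ℤ) < d := by exact_mod_cast hd
  rw [← sum_add_distrib]
  have h1 : ∀ r : ℤ, ((g d (d / 2) r ^ 2 : ℝ) : ℂ) * e (b * (r : ZMod d)) +
      ((g d 0 r ^ 2 : ℝ) : ℂ) * e (b * (r : ZMod d)) =
      ((g d (d / 2) r ^ 2 + g d 0 r ^ 2 : ℝ) : ℂ) * e (b * (r : ZMod d)) := by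
    intro r; push_cast; ring
  rw [sum_congr rfl fun r _ => h1 r]
  rw [← Ico_union_Ico_eq_Ico (show -(d : ℤ) ≤ 0 by omega) (show (0 : ℤ) ≤ d by omega),
    sum_union (Ico_disjoint_Ico_consecutive _ _ _)]
  have h2 : ∑ r ∈ Ico (-(d : ℤ)) 0, ((g d (d / 2) r ^ 2 + g d 0 r ^ 2 : ℝ) : ℂ) *
      e (b * (r : ZMod d)) = ∑ n ∈ Ico (0 : ℤ) d,
        ((g d (d / 2) (n - d) ^ 2 + g d 0 (n - d) ^ 2 : ℝ) : ℂ) * e (b * (n : ZMod d)) := by
    refine sum_nbij' (fun r => r + d) (fun n => n - d) ?_ ?_ ?_ ?_ ?_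
    · intro s hs; rw [mem_Ico] at hs ⊢; omega
    · intro s hs; rw [mem_Ico] at hs ⊢; omega
    · intro s _; ring
    · intro s _; ring
    · intro s _
      have h3 : (((s + d : ℤ)) : ZMod d) = (s : ZMod d) := by push_cast; simp
      have h4 : s + d - (d : ℤ) = s := by ring
      rw [h3, h4]
  rw [h2, ← sum_add_distrib]
  have h3 : ∀ n ∈ Ico (0 : ℤ) d,
      ((g d (d / 2) (n - d) ^ 2 + g d 0 (n - d) ^ 2 : ℝ) : ℂ) * e (b * (n : ZMod d)) +
        ((g d (d / 2) n ^ 2 + g d 0 n ^ 2 : ℝ) : ℂ) * e (b * (n : ZMod d)) =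
      e ((n : ZMod d) * b) := by
    intro n hn
    rw [mem_Ico] at hn
    have := g_partition hd hn.1 hn.2
    rw [← add_mul, ← Complex.ofReal_add]
    have h4 : g d (d / 2) (n - d) ^ 2 + g d 0 (n - d) ^ 2 + (g d (d / 2) n ^ 2 + g d 0 n ^ 2) =
        1 := by linarith
    rw [h4, Complex.ofReal_one, one_mul, mul_comm]
  rw [sum_congr rfl h3]
  have h5 := sum_Ico_cast (p := d) (0 : ℤ) (fun j => e (j * b))
  rw [zero_add] at h5
  rw [h5, sum_e]

end Pool.Agent.N655.WH
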