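import Pool.Agent.N655.WH.Fold

set_option autoImplicit false

/-! # Weyl–Heisenberg orbits with small coherence in every dimension -/

namespace Pool.Agent.N655.WH

open Finset Complex Pool.Agent.R503.SIC
open scoped ComplexConjugate

theorem cast_ne {p : ℕ} {u : ℤ} (h0 : u ≠ 0) (h1 : |u| < p) : (u : ZMod p) ≠ 0 := by
  intro h
  have h2 : (p : ℤ) ∣ u := (ZMod.intCast_zmod_eq_zero_iff_dvd _ _).1 h
  have h3 : (p : ℤ) ≤ |u| := Int.le_of_dvd (abs_pos.2 h0) ((dvd_abs _ _).2 h2)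
  omega

variable {d : ℕ} [NeZero d]

/-- the unnormalised vector -/
theorem exists_vec (hd : 7000 ≤ d) : ∃ ψ : ZMod d → ℂ,
    (∀ a b : ZMod d, (a, b) ≠ (0, 0) → ‖ov ψ a b‖ ≤ 8 * Real.sqrt (51 * d)) ∧
      ‖ov ψ 0 0 - d‖ ≤ 4 * Real.sqrt (51 * d) := by
  obtain ⟨p, hp, hp1, hp2⟩ := Nat.exists_prime_lt_and_le_two_mul (2 * d) (by omega)
  have hp2 : p ≤ 4 * d := by omega
  have := Fact.mk hp
  have hd' : (7000 : ℝ) ≤ d := by exact_mod_cast hd
  have h3 : (3 : ZMod p) ≠ 0 := by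
    intro h
    have h1 : ((3 : ℕ) : ZMod p) = 0 := by exact_mod_cast h
    rw [ZMod.natCast_eq_zero_iff] at h1
    have := Nat.le_of_dvd (by norm_num) h1
    omega
  set t : ZMod p := 3⁻¹ with ht0
  have ht : 3 * t = 1 := mul_inv_cancel₀ h3
  set κ : ℤ := (3 * d + 1) / 2 with hκ
  set P : ℤ → ℂ := fun r => B d t (d / 2) 0 r + B d t 0 κ r with hP
  have hP0 : ∀ r, P r ≠ 0 → r ∈ Ico (-(d : ℤ)) d := by
    intro r hr
    rw [mem_Ico]
    by_contra hcon
    apply hr
    have h1 : (r : ℝ) ≤ -d ∨ (d : ℝ) ≤ r := by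
      by_contra h2
      push Not at h2
      apply hcon
      constructor
      · have : (((-(d : ℤ)) : ℤ) : ℝ) < (r : ℝ) := by push_cast; exact h2.1
        exact (by exact_mod_cast this : -(d : ℤ) < r).le
      · exact_mod_cast h2.2
    simp only [hP]
    rw [B_zero_of, B_zero_of, add_zero]
    · rw [sub_zero]
      rcases h1 with h1 | h1
      · rw [abs_of_nonpos (by linarith)]; linarith
      · rw [abs_of_nonneg (by linarith)]; linarith
    · rcases h1 with h1 | h1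
      · rw [abs_of_nonpos (by linarith)]; linarith
      · rw [abs_of_nonneg (by linarith)]; linarith
  have hov : ∀ a b : ZMod d, ov (fold P) a b =
      ∑ s ∈ (Ico (-(2 * d : ℤ)) (2 * d)).filter (fun s : ℤ => (s : ZMod d) = a),
          T t (d / 2) (d / 2) 0 0 b s +
        ∑ s ∈ (Ico (-(2 * d : ℤ)) (2 * d)).filter (fun s : ℤ => (s : ZMod d) = a),
          T t 0 0 κ κ b s +
        (∑ s ∈ (Ico (-(2 * d : ℤ)) (2 * d)).filter (fun s : ℤ => (s : ZMod d) = a),
          T t (d / 2) 0 0 κ b s +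
        ∑ s ∈ (Ico (-(2 * d : ℤ)) (2 * d)).filter (fun s : ℤ => (s : ZMod d) = a),
          T t 0 (d / 2) κ 0 b s) := by
    intro a b
    unfold ov
    rw [ov_fold hP0 a b, ← sum_add_distrib, ← sum_add_distrib, ← sum_add_distrib]
    refine sum_congr rfl fun s _ => ?_
    unfold T
    rw [← sum_add_distrib, ← sum_add_distrib, ← sum_add_distrib]
    refine sum_congr rfl fun r _ => ?_
    simp only [hP, map_add]
    ring
  have hX : 0 ≤ Real.sqrt (51 * d) := Real.sqrt_nonneg _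
  have b12 : ∀ a b : ZMod d,
      ‖∑ s ∈ (Ico (-(2 * d : ℤ)) (2 * d)).filter (fun s : ℤ => (s : ZMod d) = a),
          T t (d / 2) 0 0 κ b s‖ ≤ 2 * Real.sqrt (51 * d) := by
    intro a b
    refine pair_bound hd hp hp1 hp2 ht (d / 2) 0 0 κ a b (by linarith) (by linarith) ?_ _
    intro s _ hs
    rw [abs_lt] at hs
    have h1 : 2 * s < 3 * d := by
      have : 2 * (s : ℝ) < 3 * d := by linarith
      exact_mod_cast this
    have h2 : -(d : ℤ) < 2 * s := by
      have : -(d : ℝ) < 2 * (s : ℝ) := by linarith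
      exact_mod_cast this
    apply cast_ne
    · omega
    · rw [abs_lt]; constructor <;> omega
  have b21 : ∀ a b : ZMod d,
      ‖∑ s ∈ (Ico (-(2 * d : ℤ)) (2 * d)).filter (fun s : ℤ => (s : ZMod d) = a),
          T t 0 (d / 2) κ 0 b s‖ ≤ 2 * Real.sqrt (51 * d) := by
    intro a b
    refine pair_bound hd hp hp1 hp2 ht 0 (d / 2) κ 0 a b (by linarith) (by linarith) ?_ _
    intro s _ hs
    rw [abs_lt] at hs
    have h1 : 2 * s < d := by
      have : 2 * (s : ℝ) < d := by linarith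
      exact_mod_cast this
    have h2 : -(3 * (d : ℤ)) < 2 * s := by
      have : -(3 * (d : ℝ)) < 2 * (s : ℝ) := by linarith
      exact_mod_cast this
    apply cast_ne
    · omega
    · rw [abs_lt]; constructor <;> omega
  have b11 : ∀ (c : ℝ) (κ : ℤ) (a b : ZMod d), (d : ℝ) / 2 ≤ d + c → c + d / 2 ≤ d → a ≠ 0 →
      ‖∑ s ∈ (Ico (-(2 * d : ℤ)) (2 * d)).filter (fun s : ℤ => (s : ZMod d) = a),
          T t c c κ κ b s‖ ≤ 2 * Real.sqrt (51 * d) := by
    intro c κ a b hc1 hc2 ha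
    refine pair_bound hd hp hp1 hp2 ht c c κ κ a b hc1 hc2 ?_ _
    intro s hsa hs
    rw [sub_self, sub_zero, abs_lt] at hs
    have h1 : s < d := by exact_mod_cast hs.2
    have h2 : -(d : ℤ) < s := by exact_mod_cast hs.1
    have h3 : s ≠ 0 := by
      intro h
      apply ha
      rw [← hsa, h, Int.cast_zero]
    apply cast_ne
    · omega
    · rw [abs_lt]; constructor <;> omega
  have b0 : ∀ b : ZMod d, ov (fold P) 0 b = (if b = 0 then (d : ℂ) else 0) +
      (∑ s ∈ (Ico (-(2 * d : ℤ)) (2 * d)).filter (fun s : ℤ => (s : ZMod d) = 0),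
          T t (d / 2) 0 0 κ b s +
        ∑ s ∈ (Ico (-(2 * d : ℤ)) (2 * d)).filter (fun s : ℤ => (s : ZMod d) = 0),
          T t 0 (d / 2) κ 0 b s) := by
    intro b
    rw [hov 0 b, pair_zero, pair_zero, main_term]
  refine ⟨fold P, ?_, ?_⟩
  · intro a b hab
    by_cases ha : a = 0
    · have hb : b ≠ 0 := by
        intro hb
        exact hab (by rw [ha, hb])
      rw [ha, b0 b, if_neg hb, zero_add]
      refine (norm_add_le _ _).trans ((add_le_add (b12 0 b) (b21 0 b)).trans ?_)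
      linarith
    · rw [hov a b]
      have k1 := b11 (d / 2) 0 a b (by linarith) (by linarith) ha
      have k2 := b11 0 κ a b (by linarith) (by linarith) ha
      have k3 := b12 a b
      have k4 := b21 a b
      refine (norm_add_le _ _).trans ((add_le_add (norm_add_le _ _) (norm_add_le _ _)).trans ?_)
      linarith
  · rw [b0 0, if_pos rfl, add_sub_cancel_left]
    refine (norm_add_le _ _).trans ((add_le_add (b12 0 0) (b21 0 0)).trans ?_)
    linarith

theorem ov_zero' (ψ : ZMod d → ℂ) : ov ψ 0 0 = ((∑ j, ‖ψ j‖ ^ 2 : ℝ) : ℂ) := by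
  unfold ov
  have : ∀ j : ZMod d, conj (ψ (j + 0)) * (e (0 * j) * ψ j) = ((‖ψ j‖ ^ 2 : ℝ) : ℂ) := by
    intro j
    rw [add_zero, zero_mul, e_zero, one_mul, conj_mul_self']
  rw [Finset.sum_congr rfl fun j _ => this j, ← Complex.ofReal_sum]

/-- the unnormalised form -/
theorem near_sic_strict (d : ℕ) [NeZero d] : ∃ φ : ZMod d → ℂ, 0 < ∑ j, ‖φ j‖ ^ 2 ∧
    ∀ a b : ZMod d, (a, b) ≠ (0, 0) →
      ‖ov φ a b‖ ^ 2 * ((d : ℝ) + 1) < 7500 * (∑ j, ‖φ j‖ ^ 2) ^ 2 := by
  by_cases hd : d + 1 < 7500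
  · have h0 : ∑ j : ZMod d, ‖(Pi.single 0 1 : ZMod d → ℂ) j‖ ^ 2 = 1 := by
      rw [Finset.sum_eq_single (0 : ZMod d)]
      · simp
      · intro j _ hj
        rw [Pi.single_eq_of_ne hj]; simp
      · intro h; exact absurd (mem_univ _) h
    refine ⟨Pi.single 0 1, by rw [h0]; exact one_pos, ?_⟩
    intro a b _
    have h1 : ‖ov (Pi.single 0 1 : ZMod d → ℂ) a b‖ ≤ 1 := by
      unfold ov
      rw [Finset.sum_eq_single (0 : ZMod d)]
      · rw [norm_mul, norm_mul, norm_e, norm_conj', zero_add, Pi.single_eq_same]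
        simp only [norm_one, mul_one]
        by_cases ha : a = 0
        · rw [ha, Pi.single_eq_same]; simp
        · rw [Pi.single_eq_of_ne ha]; simp
      · intro j _ hj
        rw [Pi.single_eq_of_ne hj]; simp
      · intro h; exact absurd (mem_univ _) h
    have h2 : ‖ov (Pi.single 0 1 : ZMod d → ℂ) a b‖ ^ 2 ≤ 1 := pow_le_one₀ (norm_nonneg _) h1
    have h3 : (d : ℝ) + 1 < 7500 := by exact_mod_cast hd
    rw [h0, one_pow, mul_one]
    calc ‖ov (Pi.single 0 1 : ZMod d → ℂ) a b‖ ^ 2 * ((d : ℝ) + 1) ≤ 1 * ((d : ℝ) + 1) :=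
          mul_le_mul_of_nonneg_right h2 (by positivity)
      _ < 7500 := by linarith
  · push Not at hd
    obtain ⟨φ, h1, h2⟩ := exists_vec (d := d) (by omega)
    have hd' : (7499 : ℝ) ≤ d := by
      have : 7499 ≤ d := by omega
      exact_mod_cast this
    set y := Real.sqrt (51 * d) with hy
    have hy2 : y ^ 2 = 51 * d := Real.sq_sqrt (by positivity)
    have hy0 : 0 ≤ y := Real.sqrt_nonneg _
    have hy1 : 618 ≤ y := by
      rw [hy]
      apply Real.le_sqrt_of_sq_le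
      linarith
    set N : ℝ := ∑ j, ‖φ j‖ ^ 2 with hN
    rw [ov_zero', ← hN, ← Complex.ofReal_natCast, ← Complex.ofReal_sub, Complex.norm_real,
      Real.norm_eq_abs, abs_le] at h2
    have hN1 : (d : ℝ) - 4 * y ≤ N := by linarith [h2.1]
    have hdy : (d : ℝ) = y ^ 2 / 51 := by rw [hy2]; field_simp
    have hpos : 0 < (d : ℝ) - 4 * y := by
      have h3 : (d : ℝ) - 4 * y = y * (y / 51 - 4) := by rw [hdy]; ring
      rw [h3]
      exact mul_pos (by linarith) (by linarith)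
    have hNpos : 0 < N := lt_of_lt_of_le hpos hN1
    refine ⟨φ, hNpos, ?_⟩
    intro a b hab
    have h3 := h1 a b hab
    have h4 : ‖ov φ a b‖ ^ 2 ≤ 64 * y ^ 2 := by
      refine (pow_le_pow_left₀ (norm_nonneg _) h3 2).trans (le_of_eq ?_)
      ring
    have h5 : ((d : ℝ) - 4 * y) ^ 2 ≤ N ^ 2 := pow_le_pow_left₀ hpos.le hN1 2
    have h6 : 64 * y ^ 2 * ((d : ℝ) + 1) < 7500 * ((d : ℝ) - 4 * y) ^ 2 := by
      rw [hdy]
      have h7 : 64 * (y ^ 2 / 51 + 1) < 7500 * (y / 51 - 4) ^ 2 := by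
        have h10 : 7500 * (y / 51 - 4) ^ 2 - 64 * (y ^ 2 / 51 + 1) =
            4236 / 2601 * (y - 618) ^ 2 + 2175696 / 2601 * (y - 618) + 38703600 / 2601 := by
          ring
        have h11 : 0 ≤ y - 618 := by linarith
        have h12 : 0 < 4236 / 2601 * (y - 618) ^ 2 + 2175696 / 2601 * (y - 618) +
            38703600 / 2601 := by positivity
        linarith
      have h8 : 7500 * (y ^ 2 / 51 - 4 * y) ^ 2 = y ^ 2 * (7500 * (y / 51 - 4) ^ 2) := by ring
      have h9 : 64 * y ^ 2 * (y ^ 2 / 51 + 1) = y ^ 2 * (64 * (y ^ 2 / 51 + 1)) := by ring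
      rw [h8, h9]
      exact mul_lt_mul_of_pos_left h7 (pow_pos (by linarith) 2)
    calc ‖ov φ a b‖ ^ 2 * ((d : ℝ) + 1) ≤ 64 * y ^ 2 * ((d : ℝ) + 1) :=
          mul_le_mul_of_nonneg_right h4 (by positivity)
      _ < 7500 * ((d : ℝ) - 4 * y) ^ 2 := h6
      _ ≤ 7500 * N ^ 2 := by linarith

/-! ### All overlaps can be made non-zero -/

theorem continuous_ov (a b : ZMod d) : Continuous fun ψ : ZMod d → ℂ => ov ψ a b := by
  unfold ov
  refine continuous_finsetSum _ fun j _ => ?_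
  exact ((Complex.continuous_conj.comp (continuous_apply (j + a))).mul
    (continuous_const.mul (continuous_apply j)))

theorem continuous_N : Continuous fun ψ : ZMod d → ℂ => ∑ j, ‖ψ j‖ ^ 2 := by
  refine continuous_finsetSum _ fun j _ => ?_
  exact ((continuous_apply j).norm).pow 2

/-- expansion of the overlap along a line -/
theorem ov_line (ψ η : ZMod d → ℂ) (ε : ℝ) (a b : ZMod d) :
    ov (fun j => ψ j + ε * η j) a b = ov ψ a b +
      ε * (∑ j, (conj (ψ (j + a)) * (e (b * j) * η j) + conj (η (j + a)) * (e (b * j) * ψ j))) +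
      ε ^ 2 * ov η a b := by
  unfold ov
  rw [mul_sum, mul_sum, ← sum_add_distrib, ← sum_add_distrib]
  refine sum_congr rfl fun j _ => ?_
  rw [map_add, map_mul, Complex.conj_ofReal]
  ring

/-- a vector for which a given overlap does not vanish -/
theorem exists_ne (a b : ZMod d) : ∃ η : ZMod d → ℂ, ov η a b ≠ 0 := by
  by_contra hcon
  push Not at hcon
  by_cases ha : a = 0
  · have h1 := hcon (Pi.single 0 1)
    unfold ov at h1
    rw [Finset.sum_eq_single (0 : ZMod d)] at h1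
    · rw [ha, mul_zero, e_zero, add_zero, Pi.single_eq_same] at h1
      simp at h1
    · intro j _ hj
      rw [Pi.single_eq_of_ne hj]; simp
    · intro h; exact absurd (mem_univ _) h
  · -- polarisation: `η = x δ₀ + y δ₋ₐ`
    have key : ∀ z : ℂ, conj z * 1 + (if a + a = 0 then conj (1 : ℂ) * (e (b * a) * z) else 0) = 0 := by
      intro z
      have h1 := hcon (fun j => if j = 0 then 1 else if j = a then z else 0)
      unfold ov at h1
      beta_reduce at h1
      have hsub : ({0, a} : Finset (ZMod d)) ⊆ univ := subset_univ _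
      rw [← sum_subset hsub, sum_pair (Ne.symm ha)] at h1
      · rw [zero_add, if_neg ha, if_pos rfl, if_pos rfl, mul_zero, e_zero, mul_one] at h1
        by_cases h2 : a + a = 0
        · rw [if_pos h2] at h1 ⊢
          exact h1
        · have h3 : a + a ≠ a := by
            intro h
            exact ha (by simpa using h)
          rw [if_neg h2, if_neg h3, map_zero, zero_mul] at h1
          rw [if_neg h2]
          exact h1
      · intro j _ hj
        rw [mem_insert, mem_singleton, not_or] at hj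
        rw [if_neg hj.1, if_neg hj.2]; simp
    have h1 := key 1
    have h2 := key I
    rw [map_one] at h1
    rw [map_one, Complex.conj_I] at h2
    split_ifs at h1 h2 with h
    · have h3 : e (b * a) = -1 := by linear_combination h1
      rw [h3] at h2
      have h4 : (-2 : ℂ) * I = 0 := by linear_combination h2
      simp at h4
    · simp at h1

theorem dense_ne (a b : ZMod d) : Dense {ψ : ZMod d → ℂ | ov ψ a b ≠ 0} := by
  obtain ⟨η, hη⟩ := exists_ne a b
  rw [Metric.dense_iff]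
  intro ψ r hr
  have hc : Continuous fun ε : ℝ => (fun j => ψ j + ε * η j : ZMod d → ℂ) := by
    refine continuous_pi fun j => ?_
    exact continuous_const.add (Complex.continuous_ofReal.mul continuous_const)
  have h0 : (fun j => ψ j + ((0 : ℝ) : ℂ) * η j : ZMod d → ℂ) = ψ := by
    funext j; simp
  have h1 : ∀ᶠ ε : ℝ in nhds 0, (fun j => ψ j + ε * η j : ZMod d → ℂ) ∈ Metric.ball ψ r := by
    apply hc.continuousAt.eventually_mem
    rw [h0]
    exact Metric.ball_mem_nhds _ hr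
  obtain ⟨ρ, hρ, h2⟩ := Metric.eventually_nhds_iff.1 h1
  by_contra hcon
  have h3 : ∀ ε : ℝ, |ε| < ρ → ov (fun j => ψ j + ε * η j) a b = 0 := by
    intro ε hε
    by_contra h4
    apply hcon
    exact ⟨_, h2 (by rw [Real.dist_eq, sub_zero]; exact hε), h4⟩
  set M := ∑ j, (conj (ψ (j + a)) * (e (b * j) * η j) + conj (η (j + a)) * (e (b * j) * ψ j))
    with hM
  have k1 := h3 (ρ / 4) (by rw [abs_of_pos (by positivity)]; linarith)
  have k2 := h3 (2 * (ρ / 4)) (by rw [abs_of_pos (by positivity)]; linarith)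
  have k3 := h3 (3 * (ρ / 4)) (by rw [abs_of_pos (by positivity)]; linarith)
  rw [ov_line, ← hM] at k1 k2 k3
  have h5 : 2 * ((ρ / 4 : ℝ) : ℂ) ^ 2 * ov η a b = 0 := by
    push_cast at k1 k2 k3 ⊢
    linear_combination k3 - 2 * k2 + k1
  have h6 : ((ρ / 4 : ℝ) : ℂ) ≠ 0 := by
    rw [Ne, Complex.ofReal_eq_zero]
    positivity
  rcases mul_eq_zero.1 h5 with h7 | h7
  · rcases mul_eq_zero.1 h7 with h8 | h8
    · norm_num at h8
    · exact h6 (pow_eq_zero_iff (two_ne_zero) |>.1 h8)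
  · exact hη h7

/-- **Main theorem.** -/
theorem near_sic (d : ℕ) [NeZero d] : ∃ ψ : ZMod d → ℂ, ∑ j, ‖ψ j‖ ^ 2 = 1 ∧
    ∀ a b : ZMod d, (a, b) ≠ (0, 0) →
      0 < ‖ov ψ a b‖ ^ 2 ∧ ‖ov ψ a b‖ ^ 2 < 7500 / ((d : ℝ) + 1) := by
  obtain ⟨φ₀, hφ0, hφ1⟩ := near_sic_strict d
  have hdense : Dense (⋂ q : ZMod d × ZMod d, {ψ : ZMod d → ℂ | ov ψ q.1 q.2 ≠ 0}) := by
    refine dense_iInter_of_isOpen (fun q => ?_) (fun q => dense_ne q.1 q.2)
    exact isOpen_ne_fun (continuous_ov q.1 q.2) continuous_const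
  have hopen : IsOpen ({ψ : ZMod d → ℂ | 0 < ∑ j, ‖ψ j‖ ^ 2} ∩
      ⋂ q : ZMod d × ZMod d, {ψ : ZMod d → ℂ | q ≠ (0, 0) →
        ‖ov ψ q.1 q.2‖ ^ 2 * ((d : ℝ) + 1) < 7500 * (∑ j, ‖ψ j‖ ^ 2) ^ 2}) := by
    refine IsOpen.inter (isOpen_lt continuous_const continuous_N) ?_
    refine isOpen_iInter_of_finite fun q => ?_
    by_cases hq : q ≠ (0, 0)
    · have : {ψ : ZMod d → ℂ | q ≠ (0, 0) →
          ‖ov ψ q.1 q.2‖ ^ 2 * ((d : ℝ) + 1) < 7500 * (∑ j, ‖ψ j‖ ^ 2) ^ 2} =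
          {ψ : ZMod d → ℂ |
            ‖ov ψ q.1 q.2‖ ^ 2 * ((d : ℝ) + 1) < 7500 * (∑ j, ‖ψ j‖ ^ 2) ^ 2} := by
        ext ψ
        exact ⟨fun h => h hq, fun h _ => h⟩
      rw [this]
      exact isOpen_lt ((((continuous_ov q.1 q.2).norm).pow 2).mul continuous_const)
        (continuous_const.mul (continuous_N.pow 2))
    · have : {ψ : ZMod d → ℂ | q ≠ (0, 0) →
          ‖ov ψ q.1 q.2‖ ^ 2 * ((d : ℝ) + 1) < 7500 * (∑ j, ‖ψ j‖ ^ 2) ^ 2} = Set.univ := by
        ext ψ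
        exact ⟨fun _ => trivial, fun _ h => absurd h hq⟩
      rw [this]
      exact isOpen_univ
  obtain ⟨φ, hφ2, hφ3⟩ := hdense.inter_open_nonempty _ hopen
    ⟨φ₀, hφ0, Set.mem_iInter.2 fun q hq => hφ1 q.1 q.2 hq⟩
  obtain ⟨hNpos, hφ4⟩ := hφ2
  have hφ5 : ∀ a b : ZMod d, (a, b) ≠ (0, 0) →
      ‖ov φ a b‖ ^ 2 * ((d : ℝ) + 1) < 7500 * (∑ j, ‖φ j‖ ^ 2) ^ 2 :=
    fun a b hab => Set.mem_iInter.1 hφ4 (a, b) hab
  have hφ6 : ∀ a b : ZMod d, ov φ a b ≠ 0 := fun a b => Set.mem_iInter.1 hφ3 (a, b)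
  have hNpos' : 0 < ∑ j, ‖φ j‖ ^ 2 := hNpos
  set N : ℝ := ∑ j, ‖φ j‖ ^ 2 with hN
  refine ⟨fun j => (((Real.sqrt N)⁻¹ : ℝ) : ℂ) * φ j, ?_, ?_⟩
  · have : ∀ j : ZMod d, ‖(((Real.sqrt N)⁻¹ : ℝ) : ℂ) * φ j‖ ^ 2 = N⁻¹ * ‖φ j‖ ^ 2 := by
      intro j
      rw [norm_mul, mul_pow, Complex.norm_real, Real.norm_eq_abs, sq_abs, inv_pow,
        Real.sq_sqrt hNpos'.le]
    rw [sum_congr rfl fun j _ => this j, ← mul_sum, ← hN, inv_mul_cancel₀ hNpos'.ne']
  · intro a b hab
    have e1 : ov (fun j => (((Real.sqrt N)⁻¹ : ℝ) : ℂ) * φ j) a b = ((N⁻¹ : ℝ) : ℂ) * ov φ a b := by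
      unfold ov
      rw [mul_sum]
      refine sum_congr rfl fun j _ => ?_
      rw [map_mul, Complex.conj_ofReal]
      have : ((N⁻¹ : ℝ) : ℂ) = (((Real.sqrt N)⁻¹ : ℝ) : ℂ) * (((Real.sqrt N)⁻¹ : ℝ) : ℂ) := by
        rw [← Complex.ofReal_mul, ← mul_inv, Real.mul_self_sqrt hNpos'.le]
      rw [this]; ring
    rw [e1, norm_mul, Complex.norm_real, Real.norm_eq_abs, abs_of_pos (by positivity), mul_pow,
      inv_pow, inv_mul_eq_div]
    constructor
    · have := norm_pos_iff.2 (hφ6 a b)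
      positivity
    · rw [div_lt_div_iff₀ (by positivity) (by positivity)]
      exact hφ5 a b hab

end Pool.Agent.N655.WH
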