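import Pool.Agent.N655.WH.Window

set_option autoImplicit false

/-! # Cosine windows and cubic phases -/

namespace Pool.Agent.N655.WH

open Finset Complex Pool.Agent.R503.SIC
open scoped ComplexConjugate

/-- the clipped cosine -/
noncomputable def K (x : ℝ) : ℝ := Real.cos (min |x| (Real.pi / 2))

theorem K_nonneg (x : ℝ) : 0 ≤ K x := by
  unfold K
  apply Real.cos_nonneg_of_mem_Icc
  constructor
  · have := abs_nonneg x
    have := Real.pi_pos
    have : 0 ≤ min |x| (Real.pi / 2) := le_min (abs_nonneg x) (by positivity)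
    linarith
  · exact min_le_right _ _

theorem K_le_one (x : ℝ) : K x ≤ 1 := Real.cos_le_one _

theorem K_zero {x : ℝ} (h : Real.pi / 2 ≤ |x|) : K x = 0 := by
  unfold K
  rw [min_eq_right h, Real.cos_pi_div_two]

theorem K_eq {x : ℝ} (h : |x| ≤ Real.pi / 2) : K x = Real.cos x := by
  unfold K
  rw [min_eq_left h, Real.cos_abs]

theorem K_lip (x y : ℝ) : |K x - K y| ≤ |x - y| := by
  unfold K
  refine (Real.abs_cos_sub_cos_le _ _).trans ?_
  refine (abs_min_sub_min_le_max _ _ _ _).trans ?_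
  rw [sub_self, abs_zero]
  exact max_le (abs_abs_sub_abs_le_abs_sub x y) (abs_nonneg _)

/-- the window centred at `c` -/
noncomputable def g (d : ℕ) (c : ℝ) (r : ℤ) : ℝ := K (Real.pi * (r - c) / d)

theorem g_nonneg (d : ℕ) (c : ℝ) (r : ℤ) : 0 ≤ g d c r := K_nonneg _

theorem g_le_one (d : ℕ) (c : ℝ) (r : ℤ) : g d c r ≤ 1 := K_le_one _

theorem g_zero_of {d : ℕ} (hd : 0 < d) {c : ℝ} {r : ℤ} (h : (d : ℝ) / 2 ≤ |(r : ℝ) - c|) :
    g d c r = 0 := by
  unfold g
  apply K_zero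
  have hd' : (0 : ℝ) < d := by exact_mod_cast hd
  rw [abs_div, abs_mul, abs_of_pos Real.pi_pos, abs_of_pos hd', le_div_iff₀ hd']
  have := Real.pi_pos
  nlinarith

theorem g_diff {d : ℕ} (hd : 0 < d) (c : ℝ) (r : ℤ) :
    |g d c r - g d c (r - 1)| ≤ Real.pi / d := by
  unfold g
  refine (K_lip _ _).trans (le_of_eq ?_)
  have hd' : (0 : ℝ) < d := by exact_mod_cast hd
  have : Real.pi * ((r : ℝ) - c) / d - Real.pi * (((r - 1 : ℤ) : ℝ) - c) / d = Real.pi / d := by
    push_cast; field_simp; ring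
  rw [this, abs_of_pos (by have := Real.pi_pos; positivity)]

/-- the two windows form a partition of unity modulo `d` -/
theorem g_partition {d : ℕ} (hd : 0 < d) {n : ℤ} (h0 : 0 ≤ n) (h1 : n < d) :
    g d (d / 2) n ^ 2 + g d 0 n ^ 2 + (g d (d / 2) (n - d) ^ 2 + g d 0 (n - d) ^ 2) = 1 := by
  have hd' : (0 : ℝ) < d := by exact_mod_cast hd
  have hπ := Real.pi_pos
  have h0' : (0 : ℝ) ≤ n := by exact_mod_cast h0
  have h1' : (n : ℝ) < d := by exact_mod_cast h1
  set θ : ℝ := Real.pi * n / d with hθ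
  have hθ0 : 0 ≤ θ := by positivity
  have hθ1 : θ < Real.pi := by
    rw [hθ, div_lt_iff₀ hd']
    nlinarith
  have e1 : g d (d / 2) n = Real.sin θ := by
    unfold g
    have : Real.pi * ((n : ℝ) - d / 2) / d = θ - Real.pi / 2 := by
      rw [hθ]; field_simp
    rw [this, K_eq, Real.cos_sub_pi_div_two]
    rw [abs_le]; constructor <;> linarith
  have e2 : g d (d / 2) (n - d) = 0 := by
    apply g_zero_of hd
    rw [abs_of_nonpos]
    · push_cast; linarith
    · push_cast; linarith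
  rw [e1, e2]
  have e3 : g d 0 n = K θ := by
    unfold g
    rw [sub_zero]
  have e4 : g d 0 (n - d) = K (θ - Real.pi) := by
    unfold g
    congr 1
    rw [hθ]; push_cast; field_simp; ring
  rw [e3, e4]
  rcases le_total θ (Real.pi / 2) with h | h
  · rw [K_eq (by rw [abs_of_nonneg hθ0]; exact h), K_zero (x := θ - Real.pi)]
    · have := Real.sin_sq_add_cos_sq θ
      linarith
    · rw [abs_of_nonpos (by linarith)]; linarith
  · rw [K_zero (x := θ) (by rw [abs_of_nonneg hθ0]; exact h), K_eq (x := θ - Real.pi),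
      Real.cos_sub_pi]
    · have := Real.sin_sq_add_cos_sq θ
      nlinarith
    · rw [abs_of_nonpos (by linarith)]; linarith

section

variable {d p : ℕ} [NeZero d] [NeZero p]

/-- a window with a cubic phase -/
noncomputable def B (d : ℕ) (t : ZMod p) (c : ℝ) (κ : ℤ) (r : ℤ) : ℂ :=
  (g d c r : ℂ) * e (t * (r : ZMod p) ^ 3 + (κ : ZMod p) * (r : ZMod p) ^ 2)

theorem B_zero_of (t : ZMod p) {c : ℝ} {κ r : ℤ} (h : (d : ℝ) / 2 ≤ |(r : ℝ) - c|) :
    B d t c κ r = 0 := by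
  unfold B
  rw [g_zero_of (Nat.pos_of_ne_zero (NeZero.ne d)) h]; simp

/-- the phase of a product -/
theorem B_mul {t : ZMod p} (ht : 3 * t = 1) (c c' : ℝ) (κ κ' s : ℤ) (b : ZMod d) (r : ℤ) :
    conj (B d t c κ (r + s)) * (e (b * (r : ZMod d)) * B d t c' κ' r) =
      e (-(t * (s : ZMod p) ^ 3) - (κ : ZMod p) * (s : ZMod p) ^ 2) *
        (((g d c (r + s) * g d c' r : ℝ) : ℂ) * e (b * (r : ZMod d)) *
          e (((κ' - κ - s : ℤ) : ZMod p) * (r : ZMod p) ^ 2 +
            (-(s : ZMod p) ^ 2 - 2 * (κ : ZMod p) * (s : ZMod p)) * (r : ZMod p))) := by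
  unfold B
  rw [map_mul, Complex.conj_ofReal, conj_e]
  have h1 : e (-(t * (s : ZMod p) ^ 3) - (κ : ZMod p) * (s : ZMod p) ^ 2) *
      e (((κ' - κ - s : ℤ) : ZMod p) * (r : ZMod p) ^ 2 +
        (-(s : ZMod p) ^ 2 - 2 * (κ : ZMod p) * (s : ZMod p)) * (r : ZMod p)) =
      e (-(t * (((r + s : ℤ)) : ZMod p) ^ 3 + (κ : ZMod p) * (((r + s : ℤ)) : ZMod p) ^ 2)) *
        e (t * (r : ZMod p) ^ 3 + (κ' : ZMod p) * (r : ZMod p) ^ 2) := by
    rw [← e_add, ← e_add]
    congr 1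
    push_cast
    linear_combination (-(r : ZMod p) ^ 2 * s - r * (s : ZMod p) ^ 2) * (-ht)
  calc _ = ((g d c (r + s) * g d c' r : ℝ) : ℂ) * e (b * (r : ZMod d)) *
      (e (-(t * (((r + s : ℤ)) : ZMod p) ^ 3 + (κ : ZMod p) * (((r + s : ℤ)) : ZMod p) ^ 2)) *
        e (t * (r : ZMod p) ^ 3 + (κ' : ZMod p) * (r : ZMod p) ^ 2)) := by
        push_cast; ring
    _ = _ := by rw [← h1]; ring

theorem rho_pow {d p : ℕ} (hd : 7000 ≤ d) (hp : 2 * d < p) :
    (1 - 63 / (10 * (d : ℝ))) ^ p ≤ 1 / 1000 := by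
  have hd' : (7000 : ℝ) ≤ d := by exact_mod_cast hd
  have hp' : 2 * (d : ℝ) < p := by exact_mod_cast hp
  have h0 : 0 ≤ 1 - 63 / (10 * (d : ℝ)) := by
    rw [sub_nonneg, div_le_one (by positivity)]; linarith
  have h1 : 1 - 63 / (10 * (d : ℝ)) ≤ Real.exp (-(63 / (10 * (d : ℝ)))) := by
    have := Real.add_one_le_exp (-(63 / (10 * (d : ℝ))))
    linarith
  have h2 : (1 - 63 / (10 * (d : ℝ))) ^ p ≤ Real.exp (-7) := by
    refine (pow_le_pow_left₀ h0 h1 p).trans ?_
    rw [← Real.exp_nat_mul]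
    apply Real.exp_le_exp.2
    have : 7 ≤ (p : ℝ) * (63 / (10 * (d : ℝ))) := by
      rw [mul_div_assoc', le_div_iff₀ (by positivity)]
      nlinarith
    linarith
  refine h2.trans ?_
  rw [Real.exp_neg, ← one_div]
  have h3 : (1000 : ℝ) ≤ Real.exp 7 := by
    have h4 : Real.exp 7 = Real.exp 1 ^ 7 := by
      rw [← Real.exp_nat_mul]; norm_num
    have h5 := Real.exp_one_gt_d9
    have h6 : (2.7 : ℝ) ^ 7 ≤ Real.exp 1 ^ 7 := pow_le_pow_left₀ (by norm_num) (by linarith) 7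
    rw [h4]
    refine le_trans ?_ h6
    norm_num
  exact one_div_le_one_div_of_le (by norm_num) h3

/-- **The bound for one shift.** -/
theorem T_bound (hd : 7000 ≤ d) (hp : p.Prime) (hp1 : 2 * d < p) (hp2 : p ≤ 4 * d) {t : ZMod p}
    (ht : 3 * t = 1) (c c' : ℝ) (κ κ' s : ℤ) (b : ZMod d)
    (hu : ((κ' - κ - s : ℤ) : ZMod p) ≠ 0) {T : Finset ℤ}
    (hT : ∀ r : ℤ, |(r : ℝ) - c'| < d / 2 → r ∈ T) :
    ‖∑ r ∈ T, conj (B d t c κ (r + s)) * (e (b * (r : ZMod d)) * B d t c' κ' r)‖ ^ 2 ≤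
      51 * d := by
  have := Fact.mk hp
  have hd0 : 0 < d := by omega
  have hd' : (7000 : ℝ) ≤ d := by exact_mod_cast hd
  have hp1' : 2 * (d : ℝ) < p := by exact_mod_cast hp1
  have hp2' : (p : ℝ) ≤ 4 * d := by exact_mod_cast hp2
  have hdpos : (0 : ℝ) < d := by linarith
  rw [sum_congr rfl fun r _ => B_mul ht c c' κ κ' s b r, ← mul_sum, norm_mul, norm_e, one_mul]
  set h : ℤ → ℝ := fun r => g d c (r + s) * g d c' r with hh
  have h2 : (2 : ZMod p) ≠ 0 := by
    intro h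
    have h1 : ((2 : ℕ) : ZMod p) = 0 := by exact_mod_cast h
    rw [ZMod.natCast_eq_zero_iff] at h1
    have := Nat.le_of_dvd (by norm_num) h1
    omega
  have hne : ∀ r, h r ≠ 0 → |(r : ℝ) - c'| < d / 2 := by
    intro r hr
    by_contra hcon
    push Not at hcon
    apply hr
    simp only [hh]
    rw [g_zero_of hd0 hcon, mul_zero]
  set ρ : ℝ := 1 - 63 / (10 * (d : ℝ)) with hρ
  have hρ0 : 0 ≤ ρ := by
    rw [hρ, sub_nonneg, div_le_one (by positivity)]; linarith
  have hρ1 : ρ < 1 := by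
    rw [hρ]
    have : 0 < 63 / (10 * (d : ℝ)) := by positivity
    linarith
  have key := window_bound (p := p) (u := ((κ' - κ - s : ℤ) : ZMod p))
    (IsUnit.mk0 _ (mul_ne_zero h2 hu)) (-(s : ZMod p) ^ 2 - 2 * (κ : ZMod p) * (s : ZMod p))
    (A := ⌊c' - d / 2⌋ + 1) (m := d) (by omega) (h := h) ?_ (E := fun r => e (b * (r : ZMod d)))
    (fun r => norm_e _) (ζ := e b) ?_ hρ0 hρ1 (δ := 126 / (10 * (d : ℝ))) ?_ (T := T)
    (fun r hr => hT r (hne r hr))
  · set Y := ‖∑ r ∈ T, (h r : ℂ) * e (b * (r : ZMod d)) *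
      e (((κ' - κ - s : ℤ) : ZMod p) * (r : ZMod p) ^ 2 +
        (-(s : ZMod p) ^ 2 - 2 * (κ : ZMod p) * (s : ZMod p)) * (r : ZMod p))‖ with hY
    have hρp : ρ ^ p ≤ 1 / 1000 := rho_pow hd hp1
    have h3 : (998 / 1000 : ℝ) ≤ (1 - ρ ^ p) ^ 2 := by nlinarith
    have h4 : (63 / (10 * (d : ℝ))) * (1999 / 1000) ≤ 1 - ρ ^ 2 := by
      have h5 : 63 / (10 * (d : ℝ)) ≤ 1 / 1000 := by
        rw [div_le_div_iff₀ (by positivity) (by norm_num)]; linarith
      have h6 : 0 < 63 / (10 * (d : ℝ)) := by positivity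
      have h7 : 1 - ρ ^ 2 = (63 / (10 * (d : ℝ))) * (2 - 63 / (10 * (d : ℝ))) := by
        rw [hρ]; ring
      rw [h7]
      exact mul_le_mul_of_nonneg_left (by linarith) h6.le
    have h8 : (998 / 1000 : ℝ) * ((63 / (10 * (d : ℝ))) * (1999 / 1000)) * Y ^ 2 ≤
        4 * d * ((d + 1) * (126 / (10 * (d : ℝ))) ^ 2) := by
      calc _ ≤ (1 - ρ ^ p) ^ 2 * (1 - ρ ^ 2) * Y ^ 2 := by
            refine mul_le_mul_of_nonneg_right ?_ (sq_nonneg _)
            exact mul_le_mul h3 h4 (by positivity) (sq_nonneg _)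
        _ ≤ p * ((d + 1) * (126 / (10 * (d : ℝ))) ^ 2) := key
        _ ≤ _ := by
            refine mul_le_mul_of_nonneg_right hp2' (by positivity)
    have h9 : 4 * (d : ℝ) * ((d + 1) * (126 / (10 * (d : ℝ))) ^ 2) =
        (63 / (10 * (d : ℝ))) * (4 * (d + 1) * (126 / 5)) := by
      field_simp; ring
    have h10 : (998 / 1000 : ℝ) * ((63 / (10 * (d : ℝ))) * (1999 / 1000)) * Y ^ 2 =
        (63 / (10 * (d : ℝ))) * ((998 / 1000) * (1999 / 1000) * Y ^ 2) := by ring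
    rw [h9, h10] at h8
    have h11 := le_of_mul_le_mul_left h8 (by positivity : 0 < 63 / (10 * (d : ℝ)))
    linarith
  · intro r hr
    have h3 := abs_lt.1 (hne r hr)
    have h4 : ((⌊c' - d / 2⌋ : ℤ) : ℝ) ≤ c' - d / 2 := Int.floor_le _
    have h5 : c' - d / 2 < ((⌊c' - d / 2⌋ : ℤ) : ℝ) + 1 := Int.lt_floor_add_one _
    constructor
    · have : ((⌊c' - d / 2⌋ : ℤ) : ℝ) < (r : ℝ) := by linarith
      have : ⌊c' - d / 2⌋ < r := by exact_mod_cast this
      omega
    · have : (r : ℝ) < (((⌊c' - d / 2⌋ : ℤ) + 1 + (d : ℤ) : ℤ) : ℝ) := by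
        push_cast; linarith
      exact_mod_cast this
  · intro r
    show e (b * (r : ZMod d)) = e b * e (b * ((r - 1 : ℤ) : ZMod d))
    rw [← e_add]
    congr 1
    push_cast; ring
  · intro r
    have h3 : h r - ρ * h (r - 1) = (g d c (r + s) - g d c (r + s - 1)) * g d c' r +
        g d c (r + s - 1) * (g d c' r - g d c' (r - 1)) +
        (63 / (10 * (d : ℝ))) * (g d c (r + s - 1) * g d c' (r - 1)) := by
      simp only [hh, hρ]
      have : r - 1 + s = r + s - 1 := by ring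
      rw [this]; ring
    rw [h3]
    have a1 := g_diff hd0 c (r + s)
    have a2 := g_diff hd0 c' r
    have n1 := g_nonneg d c (r + s - 1)
    have n2 := g_nonneg d c' r
    have n3 := g_nonneg d c' (r - 1)
    have l1 := g_le_one d c (r + s - 1)
    have l2 := g_le_one d c' r
    have l3 := g_le_one d c' (r - 1)
    have b1 : |(g d c (r + s) - g d c (r + s - 1)) * g d c' r| ≤ Real.pi / d := by
      rw [abs_mul, abs_of_nonneg n2]
      exact (mul_le_of_le_one_right (abs_nonneg _) l2).trans a1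
    have b2 : |g d c (r + s - 1) * (g d c' r - g d c' (r - 1))| ≤ Real.pi / d := by
      rw [abs_mul, abs_of_nonneg n1]
      exact (mul_le_of_le_one_left (abs_nonneg _) l1).trans a2
    have b3 : |(63 / (10 * (d : ℝ))) * (g d c (r + s - 1) * g d c' (r - 1))| ≤
        63 / (10 * (d : ℝ)) := by
      rw [abs_of_nonneg (by positivity)]
      exact mul_le_of_le_one_right (by positivity) (mul_le_one₀ l1 n3 l3)
    have b4 : Real.pi / d ≤ 63 / (20 * (d : ℝ)) := by
      rw [div_le_div_iff₀ hdpos (by positivity)]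
      have := Real.pi_lt_d2
      nlinarith
    have b5 : 126 / (10 * (d : ℝ)) = 63 / (20 * (d : ℝ)) + 63 / (20 * (d : ℝ)) +
        63 / (10 * (d : ℝ)) := by field_simp; norm_num
    rw [b5]
    refine (abs_add_le _ _).trans (add_le_add ((abs_add_le _ _).trans (add_le_add ?_ ?_)) b3)
    · exact b1.trans b4
    · exact b2.trans b4

end

end Pool.Agent.N655.WH
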