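import Pool.Agent.N655.WH.Core

set_option autoImplicit false

/-! # Windows on the integers -/

namespace Pool.Agent.N655.WH

open Finset Complex Pool.Agent.R503.SIC
open scoped ComplexConjugate

section Sums

variable {p : ℕ} [NeZero p]

theorem val_sub {A r : ℤ} (h : r ∈ Ico A (A + p)) : A + (((r : ZMod p) - (A : ZMod p)).val : ℤ) = r := by
  rw [mem_Ico] at h
  have h1 : (r : ZMod p) - (A : ZMod p) = ((r - A : ℤ) : ZMod p) := by push_cast; rfl
  rw [h1, ZMod.val_intCast, Int.emod_eq_of_lt (by omega) (by omega)]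
  ring

theorem sum_Ico_cast {M : Type} [AddCommMonoid M] (A : ℤ) (f : ZMod p → M) :
    ∑ r ∈ Ico A (A + p), f (r : ZMod p) = ∑ j, f j := by
  refine sum_bij' (fun r _ => (r : ZMod p)) (fun j _ => A + ((j - (A : ZMod p)).val : ℤ))
    (fun _ _ => mem_univ _) ?_ ?_ ?_ (fun _ _ => rfl)
  · intro j _
    have := ZMod.val_lt (j - (A : ZMod p))
    rw [mem_Ico]; constructor <;> omega
  · intro r hr
    exact val_sub hr
  · intro j _
    push_cast
    rw [ZMod.natCast_zmod_val]; ring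

theorem sum_eq_of_support {M : Type} [AddCommMonoid M] {f : ℤ → M} {S T : Finset ℤ}
    (hS : ∀ r, f r ≠ 0 → r ∈ S) (hT : ∀ r, f r ≠ 0 → r ∈ T) : ∑ r ∈ S, f r = ∑ r ∈ T, f r := by
  have h1 : ∑ r ∈ S, f r = ∑ r ∈ S ∪ T, f r :=
    sum_subset subset_union_left fun r _ h => by_contra fun h' => h (hS r h')
  have h2 : ∑ r ∈ T, f r = ∑ r ∈ S ∪ T, f r :=
    sum_subset subset_union_right fun r _ h => by_contra fun h' => h (hT r h')
  rw [h1, h2]

/-- the smooth quadratic exponential sum on the integers -/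
theorem window_bound {u : ZMod p} (hu : IsUnit (2 * u)) (v : ZMod p) {A : ℤ} {m : ℕ}
    (hm : m < p) {h : ℤ → ℝ} (hs : ∀ r, h r ≠ 0 → A ≤ r ∧ r < A + m) {E : ℤ → ℂ}
    (hE1 : ∀ r, ‖E r‖ = 1) {ζ : ℂ} (hE : ∀ r, E r = ζ * E (r - 1)) {ρ : ℝ} (h0 : 0 ≤ ρ)
    (h1 : ρ < 1) {δ : ℝ} (hδ : ∀ r, |h r - ρ * h (r - 1)| ≤ δ) {T : Finset ℤ}
    (hT : ∀ r, h r ≠ 0 → r ∈ T) :
    (1 - ρ ^ p) ^ 2 * (1 - ρ ^ 2) *
      ‖∑ r ∈ T, (h r : ℂ) * E r * e (u * (r : ZMod p) ^ 2 + v * (r : ZMod p))‖ ^ 2 ≤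
      p * ((m + 1) * δ ^ 2) := by
  have hζ : ‖ζ‖ = 1 := by
    have := hE1 0
    rw [hE 0, norm_mul, hE1, mul_one] at this
    exact this
  have hp0 : p ≠ 0 := NeZero.ne p
  -- transfer to residues
  set f : ℤ → ℂ := fun r => (h r : ℂ) * E r with hf
  set F : ZMod p → ℂ := fun j => f (A + ((j - (A : ZMod p)).val : ℤ)) with hF
  have hFr : ∀ r ∈ Ico A (A + p), F (r : ZMod p) = f r := by
    intro r hr
    simp only [hF]
    rw [val_sub hr]
  have hsum : ∑ r ∈ T, f r * e (u * (r : ZMod p) ^ 2 + v * (r : ZMod p)) =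
      ∑ j, F j * e (u * j ^ 2 + v * j) := by
    have hc : ∑ r ∈ Ico A (A + p), F (r : ZMod p) * e (u * (r : ZMod p) ^ 2 + v * (r : ZMod p)) =
        ∑ r ∈ Ico A (A + p), f r * e (u * (r : ZMod p) ^ 2 + v * (r : ZMod p)) :=
      sum_congr rfl fun r hr => by rw [hFr r hr]
    rw [← sum_Ico_cast A (fun j => F j * e (u * j ^ 2 + v * j)), hc]
    have key : ∀ r, f r * e (u * (r : ZMod p) ^ 2 + v * (r : ZMod p)) ≠ 0 → h r ≠ 0 := by
      intro r hr h'
      apply hr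
      simp only [hf]
      rw [h']; simp
    refine sum_eq_of_support (fun r hr => hT r (key r hr)) (fun r hr => ?_)
    have := hs r (key r hr)
    rw [mem_Ico]; omega
  have hcore := core hu v F (ρ * ζ)
  rw [← hsum] at hcore
  -- the difference
  have hD : ∑ j, ‖F j - ρ * ζ * F (j - 1)‖ ^ 2 ≤ (m + 1) * δ ^ 2 := by
    rw [← sum_Ico_cast A (fun j => ‖F j - ρ * ζ * F (j - 1)‖ ^ 2)]
    have h2 : ∀ r ∈ Ico A (A + p), ‖F (r : ZMod p) - ρ * ζ * F ((r : ZMod p) - 1)‖ ^ 2 =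
        |h r - ρ * h (r - 1)| ^ 2 := by
      intro r hr
      have h3 : F ((r : ZMod p) - 1) = f (r - 1) := by
        rw [mem_Ico] at hr
        by_cases hrA : r = A
        · have h4 : (r : ZMod p) - 1 = ((A + p - 1 : ℤ) : ZMod p) := by
            rw [hrA]; push_cast; rw [ZMod.natCast_self]; ring
          rw [h4, hFr _ (by rw [mem_Ico]; omega)]
          have h5 : h (A + p - 1) = 0 := by
            by_contra h6
            have := hs _ h6
            omega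
          have h7 : h (r - 1) = 0 := by
            by_contra h6
            have := hs _ h6
            omega
          simp only [hf]
          rw [h5, h7]; simp
        · have h4 : (r : ZMod p) - 1 = ((r - 1 : ℤ) : ZMod p) := by push_cast; rfl
          rw [h4, hFr _ (by rw [mem_Ico]; omega)]
      rw [hFr r hr, h3]
      simp only [hf]
      have h8 : (h r : ℂ) * E r - ρ * ζ * ((h (r - 1) : ℂ) * E (r - 1)) =
          ((h r - ρ * h (r - 1) : ℝ) : ℂ) * E r := by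
        rw [hE r]; push_cast; ring
      rw [h8, norm_mul, hE1, mul_one, Complex.norm_real, Real.norm_eq_abs]
    rw [sum_congr rfl h2]
    have h9 : ∑ r ∈ Ico A (A + p), |h r - ρ * h (r - 1)| ^ 2 =
        ∑ r ∈ Ico A (A + (m + 1)), |h r - ρ * h (r - 1)| ^ 2 := by
      have key : ∀ r, |h r - ρ * h (r - 1)| ^ 2 ≠ 0 → r ∈ Ico A (A + (m + 1)) := by
        intro r hr
        rw [mem_Ico]
        by_contra hcon
        apply hr
        have e1 : h r = 0 := by
          by_contra h6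
          have := hs _ h6
          omega
        have e2 : h (r - 1) = 0 := by
          by_contra h6
          have := hs _ h6
          omega
        rw [e1, e2]; simp
      refine sum_eq_of_support (fun r hr => ?_) key
      have := key r hr
      rw [mem_Ico] at this ⊢
      omega
    rw [h9]
    calc ∑ r ∈ Ico A (A + (m + 1)), |h r - ρ * h (r - 1)| ^ 2
        ≤ ∑ r ∈ Ico A (A + (m + 1)), δ ^ 2 := by
          refine sum_le_sum fun r _ => ?_
          exact pow_le_pow_left₀ (abs_nonneg _) (hδ r) 2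
      _ = (m + 1) * δ ^ 2 := by
          rw [sum_const, Int.card_Ico]
          have : (A + ((m : ℤ) + 1) - A).toNat = m + 1 := by omega
          rw [this, nsmul_eq_mul]; push_cast; ring
  have hz : ‖(ρ : ℂ) * ζ‖ = ρ := by
    rw [norm_mul, hζ, mul_one, Complex.norm_real, Real.norm_eq_abs, abs_of_nonneg h0]
  rw [hz] at hcore
  have hρp : ρ ^ p < 1 := pow_lt_one₀ h0 h1 hp0
  have hnorm : 1 - ρ ^ p ≤ ‖1 - ((ρ : ℂ) * ζ) ^ p‖ := by
    have h2 := norm_sub_norm_le (1 : ℂ) (((ρ : ℂ) * ζ) ^ p)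
    rw [norm_one, norm_pow, hz] at h2
    exact h2
  have hgeom : (1 - ρ ^ 2) * ∑ l ∈ range p, (ρ ^ 2) ^ l ≤ 1 := by
    rw [mul_neg_geom_sum (ρ ^ 2) p]
    have : 0 ≤ (ρ ^ 2) ^ p := by positivity
    linarith
  have hρ2 : 0 < 1 - ρ ^ 2 := by nlinarith
  set Q := ‖∑ r ∈ T, f r * e (u * (r : ZMod p) ^ 2 + v * (r : ZMod p))‖ with hQ
  set W := ∑ j, ‖F j - ρ * ζ * F (j - 1)‖ ^ 2 with hW
  have hW0 : 0 ≤ W := sum_nonneg fun _ _ => by positivity
  have hgs : 0 ≤ ∑ l ∈ range p, (ρ ^ 2) ^ l := sum_nonneg fun _ _ => by positivity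
  calc (1 - ρ ^ p) ^ 2 * (1 - ρ ^ 2) * Q ^ 2
      ≤ ‖1 - ((ρ : ℂ) * ζ) ^ p‖ ^ 2 * (1 - ρ ^ 2) * Q ^ 2 := by
        refine mul_le_mul_of_nonneg_right (mul_le_mul_of_nonneg_right ?_ hρ2.le) (sq_nonneg _)
        exact pow_le_pow_left₀ (by linarith) hnorm 2
    _ = (1 - ρ ^ 2) * (‖1 - ((ρ : ℂ) * ζ) ^ p‖ ^ 2 * Q ^ 2) := by ring
    _ ≤ (1 - ρ ^ 2) * ((∑ l ∈ range p, (ρ ^ 2) ^ l) * (p * W)) :=
        mul_le_mul_of_nonneg_left hcore hρ2.le
    _ = ((1 - ρ ^ 2) * ∑ l ∈ range p, (ρ ^ 2) ^ l) * (p * W) := by ring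
    _ ≤ 1 * (p * W) := mul_le_mul_of_nonneg_right hgeom (by positivity)
    _ ≤ p * ((m + 1) * δ ^ 2) := by
        rw [one_mul]
        exact mul_le_mul_of_nonneg_left hD (by positivity)

end Sums

end Pool.Agent.N655.WH
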